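import Pool.Agent.Helper84.Cr.I

/-!
# Abstract commensurators of virtually torsion-free groups of finite rank

`AbsComm E` (`Pool.Agent.X201.FJ`) is the abstract commensurator of `E`: the group of the isomorphisms
between subgroups of finite index of `E`, two of them being identified if they agree on a subgroup of
finite index.  `Commensurated E`: the subgroup `E` of `Γ` is commensurable with all its conjugates.

`FiniteRank n N` (`Pool.Agent.Helper84.Cr.I`): there is a series `N = N₀, N₁, …, Nₙ` of subgroups such
that `Nₙ` is finite and `Nᵢ₊₁` is the kernel of a homomorphism to `ℚ` from a subgroup of finite index of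
`Nᵢ`.  Examples are the virtually polycyclic groups, the solvable Baumslag–Solitar groups, and all torsion-free
solvable groups of finite rank.

`charStab N` (`Pool.Agent.Q152.TA.Rank`) is the group of the elements of `N` which act trivially on all
homomorphisms from subgroups of finite index of `N` to `ℚ`, and `charKer N` is the group of the elements of
`charStab N` on which all these homomorphisms vanish (that is, `χ (g ^ m) = 0` if `g ^ m` is in the domain of
the homomorphism `χ`).  `BoundedBetti K` (`Pool.Agent.Helper84.Cr.H`): for some `b` the dimension of
`Hom (L, ℚ)` is at most `b` for all subgroups `L` of finite index of `K`.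

`Closed C`, `ExtClosed C`, `HasSolvable C` and `ClosedA C` are known for the class `C` of the groups which
satisfy the K-theoretic Farrell–Jones conjecture with additive category coefficients and finite wreath
products (Bartels–Lück–Reich, Bartels–Farrell–Lück, Wegner, Knopf), and this class contains `GLₙ(ℚ)`
(Rüping).  `VSolv S`: the group `S` is virtually solvable.  `Est G v w`: the stabilizer of the edge from
`v` to `w`.  `PC G R v` (`Q27.VC`): if `a` and `b` are in `R` and fix `v`, and a positive power of `a` commutes
with `b`, then `a` commutes with `b` (for instance `G_v` has unique roots, or is bi-orderable).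
`CenV G R v w`: `E ∩ KK E ∩ R` is finite or central in `G_v ∩ KK E ∩ R`, where `E` is the stabilizer of the edge
and `KK E` is the group of the elements which commute with the elements of a subgroup of finite index of `E`
(it is finite, for instance, if `E` is virtually ICC).

Outline of the proof.  Let `K` be torsion-free such that the space `V` of the homomorphisms
`charStab K → ℚ` is finite-dimensional and `charStab K` has finite index.  Every homomorphism to `ℚ` from a
subgroup of finite index of `K` extends to `charStab K` (transfer), so the abstract commensurator acts on `V`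
and its elements restrict to `M = charKer K`.  Let the classes of `f` and `g` be in the kernels of
`Comm(K) → GL(V)` and `Comm(K) → Comm(M)`.  Then `f(x) = c(x) x` and `g(x) = d(x) x` on a subgroup of finite
index, where `c(x)` and `d(x)` commute with the elements of a subgroup of finite index of `M`.  The
elements of `M` with this property commute with each other, because `K` is torsion-free (the `k`-th powers
in a group whose centre has index `k` form a homomorphism).  As `f` and `g` are the identity on a subgroup
of finite index of `M`, they are the identity on these elements, and `f(g(x)) = d(x) c(x) x = g(f(x))`.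
The rank of `charKer K` is smaller than that of `K`, so (1) follows by induction.  (5) follows from (4) and
`MP_59dd5b_al.VirtualCentralizers`, where the commensurators of the edge stabilizers in `G` are required
to have suitable homomorphisms to groups in `C`.
-/

set_option autoImplicit false

namespace Pool.Agent.Results.MP_e40716_gt.FiniteRankCommensurators

open Pool.Agent.Helper84.Cr Pool.Agent.Q91.FJ Pool.Agent.Y462.SS Pool.Agent.Q152.WP
open Pool.Agent.X201.FJ Pool.Agent.Q152.TA
open Q182.Cyl (ClosedA Est)
open Q27.VC (CenV PC)

/-- `E` is virtually torsion-free of finite rank, with a series of length `n`. -/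
def VTF (n : ℕ) (E : Type) [Group E] : Prop :=
  (∃ E₀ : Subgroup E, E₀.FiniteIndex ∧ ∀ g ∈ E₀, IsOfFinOrder g → g = 1) ∧
    FiniteRank n (⊤ : Subgroup E)

/-- `K` is torsion-free, and the first Betti numbers of the subgroups of finite index are bounded. -/
def TFB (K : Type) [Group K] : Prop := (∀ x : K, IsOfFinOrder x → x = 1) ∧ BoundedBetti K

/-- the actions on trees of (5) -/
structure Action {G V D₀ : Type} [Group G] [Group D₀] [MulAction G V] (T : SimpleGraph V)
    (ρ₀ : G →* D₀) : Prop where
  isTree : T.IsTree
  adj : ∀ (g : G) (v w : V), T.Adj v w → T.Adj (g • v) (g • w)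
  noInv : ∀ (g : G) (v w : V), T.Adj v w → ¬ (g • v = w ∧ g • w = v)
  two : ∀ v w w' : V, T.Adj v w → T.Adj v w' →
    Subgroup.Commensurable (Est G v w) (Est G v w') ∨ Finite ↥(Est G v w ⊓ Est G v w')
  edge : ∀ v w : V, T.Adj v w → Infinite (Est G v w) →
    (∃ n : ℕ, VTF n (Est G v w)) ∧ (CenV G ρ₀.ker v w ∨ PC G ρ₀.ker v)

/-- a homomorphism of the abstract commensurator to `GLₘ(ℚ)` with a kernel of derived length `≤ n` -/
def Represented (n : ℕ) (E : Type) [Group E] : Prop :=
  ∃ (m : ℕ) (ρ : AbsComm E →* Matrix.GeneralLinearGroup (Fin m) ℚ), derivedSeries ρ.ker n = ⊥

/-- a homomorphism of `Γ` to `GLₘ(ℚ)` such that the elements of the `n`-th derived subgroup of the kernel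
commute with the elements of subgroups of finite index of `E` -/
def RepresentedModulo (n : ℕ) {Γ : Type} [Group Γ] (E : Subgroup Γ) : Prop :=
  ∃ (m : ℕ) (ρ : Γ →* Matrix.GeneralLinearGroup (Fin m) ℚ),
    ∀ x ∈ derivedSeries ρ.ker n, ∃ A : Subgroup Γ, A ≤ E ∧ A.relIndex E ≠ 0 ∧
      ∀ a ∈ A, (x : Γ) * a = a * x

/-- a homomorphism from the abstract commensurator of `K` to the product of `GLₘ(ℚ)` and the abstract
commensurator of `charKer K` with commutative kernel -/
def Reduces (K : Type) [Group K] : Prop :=
  ∃ (m : ℕ) (Φ : AbsComm K →* Matrix.GeneralLinearGroup (Fin m) ℚ ×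
    AbsComm (charKer (⊤ : Subgroup K))), ∀ x y : AbsComm K, Φ x = 1 → Φ y = 1 → x * y = y * x

/-- the class contains the quotients `H / S` of subgroups `H` of the abstract commensurator of `E` by
virtually solvable normal subgroups `S` -/
def Contains (C : ∀ (G : Type) [Group G], Prop) (E : Type) [Group E] : Prop :=
  ∀ (H : Subgroup (AbsComm E)) (S : Subgroup H) [S.Normal], VSolv S → C (H ⧸ S)

/-- (1) Let `E` be virtually torsion-free of finite rank, with a series of length `n` (`VTF`).  Then there is a
homomorphism from the abstract commensurator of `E` to some `GLₘ(ℚ)` whose kernel is solvable of derived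
length at most `n`.

(2) Let `E` be a commensurated subgroup of a group `Γ`, virtually torsion-free of finite rank, with a
series of length `n`.  Then there is a homomorphism from `Γ` to some `GLₘ(ℚ)` such that each element of the
`n`-th derived subgroup of the kernel commutes with all elements of a subgroup of finite index of `E`.

(3) Let `K` be any torsion-free group such that the first Betti numbers of the subgroups of finite index
are bounded (`TFB`).  Then there is a homomorphism from the abstract commensurator of `K` to the product of some
`GLₘ(ℚ)` and the abstract commensurator of `charKer K` with commutative kernel.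

(4) Let `C` be a class of groups with the closure properties `Closed C` and `ExtClosed C` which contains the
solvable groups and the groups `GLₘ(ℚ)` for all `m`.  For `E` as in (1), `H / S` is in `C` for all subgroups
`H` of the abstract commensurator of `E` and all virtually solvable normal subgroups `S` of `H`.  For `K` as
in (3), the abstract commensurator of `K` is in `C` if that of `charKer K` is.

(5) Let `C` be as in (4), and let `C` also have the closure properties `ClosedA C`.  Let `G` act (`Action`)
without inversions on a tree, such that the stabilizers of two edges with a common vertex are commensurable or have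
a finite intersection, let `ρ₀` be a homomorphism from `G` to a group in `C` with kernel `R` (for example
`R = G`), and let the infinite edge stabilizers `E` be virtually torsion-free of finite rank.  For both
ends `v` of the edge let `G_v ∩ R` be power-commutative (`PC`), or let the group of the elements of `E ∩ R`
which commute with a subgroup of finite index of `E` be finite or central in the group of the elements of
`G_v ∩ R` with this property (`CenV`).  Then `G` is in `C` if and only if the stabilizers of the vertices
are in `C`. -/
theorem result :
    (∀ (n : ℕ) (E : Type) [Group E], VTF n E → Represented n E) ∧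
    (∀ (n : ℕ) (Γ : Type) [Group Γ] (E : Subgroup Γ), Commensurated E → VTF n E →
      RepresentedModulo n E) ∧
    (∀ (K : Type) [Group K], TFB K → Reduces K) ∧
    (∀ (C : ∀ (G : Type) [Group G], Prop), Closed C → ExtClosed C → HasSolvable C →
      (∀ m : ℕ, C (Matrix.GeneralLinearGroup (Fin m) ℚ)) →
      (∀ (n : ℕ) (E : Type) [Group E], VTF n E → Contains C E) ∧
      (∀ (K : Type) [Group K], TFB K →
        C (AbsComm (charKer (⊤ : Subgroup K))) → C (AbsComm K)) ∧
      (ClosedA C → ∀ (G V D₀ : Type) [Group G] [Group D₀] [MulAction G V] (T : SimpleGraph V)
        (ρ₀ : G →* D₀), C D₀ → Action T ρ₀ → (C G ↔ ∀ v : V, C (MulAction.stabilizer G v)))) := by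
  refine ⟨fun n E _ h => (vtf_main n E h.2.rk h.1).gl, fun n Γ _ E hE h =>
    commensurated_rep E hE (vtf_main n E h.2.rk h.1), fun K _ h => betti_step h.1 h.2, ?_⟩
  intro C hC hE hS hQ
  refine ⟨fun n E _ h H S _ hVS => quot_C hC hE hS hQ (vtf_main n E h.2.rk h.1) H S hVS,
    fun K _ h hk => betti_C hC hE hS hQ h.1 h.2 hk, ?_⟩
  intro hA G V D₀ _ _ _ T ρ₀ hD₀ h0
  refine ⟨fun h v => of_sub hC _ h, fun h => ?_⟩
  refine trees hA hS hQ G V D₀ T h0.isTree h0.adj h0.noInv h h0.two ρ₀ hD₀
    (fun v w hvw hinf => (h0.edge v w hvw hinf).2) (fun v w hvw hinf => ?_)
  obtain ⟨⟨n, h1⟩, -⟩ := h0.edge v w hvw hinf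
  exact ⟨n, vtf_main n _ h1.2.rk h1.1⟩

end Pool.Agent.Results.MP_e40716_gt.FiniteRankCommensurators
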