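import Pool.Agent.Helper84.FJ.N

/-!
# Farrell–Jones groups and automorphisms of nilpotent-by-abelian groups

`Closed C` (`Pool.Agent.Y462.SS.Base`): the class `C` of groups contains `ℤ` and is closed under groups
that embed, finite products, free products, overgroups of finite index and colimits of directed systems
with arbitrary structure maps.  `ExtClosed C` (`Pool.Agent.Q152.WP.Perm`): if `G` maps onto a group `Q` of
`C`, and the kernel and the preimages of all infinite cyclic subgroups of `Q` are in `C`, then `G` is in
`C`.  `HasSolvable C`: all solvable groups are in `C`.  All these properties, and that the groups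
`GLₙ(ℚ)` and `GLₙ(𝔽ₚ(t))` are in `C`, are known for the class of the groups which satisfy the
K-theoretic Farrell–Jones conjecture with additive category coefficients and finite wreath products
(Bartels–Lück–Reich, Bartels–Farrell–Lück, Wegner, Rüping).

Outline of the proof.  Let `G` be a finitely generated group whose commutator subgroup `M` is nilpotent.
The terms of the lower central series of `M` are characteristic in `G`, and an automorphism of `G` which
is trivial modulo the last nontrivial term `N < M` of this series is trivial on `[M, M] ≥ N`.  This
reduces everything to the metabelian group `G / [M, M]`.  There `A = M / [M, M]` is a finitely generated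
module over a finitely generated commutative ring `R`, and `Aut(G)` acts on `A` by semilinear maps.  The
torsion submodules of `A` for the finitely many associated primes give a series of submodules which are
invariant under a subgroup of finite index of `Aut(G)`, with torsion-free factors over domains `R / P`
of dimension at most one.  The automorphism group of a finitely generated domain of dimension at most one
is finite, so up to finite index everything is linear over the fields of fractions of the rings `R / P`,
and these are finite extensions of `ℚ` or `𝔽ₚ(t)`, or finite.  So `Aut(G)` and the holomorph have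
subgroups of finite index which are solvable-by-linear.  The class of the groups with this property is
closed under quotients by virtually solvable normal subgroups (see
`MP_e40716_gt.VirtuallySolvableQuotients`).
-/

set_option autoImplicit false

namespace Pool.Agent.Results.MP_e40716_gt.NilpotentByAbelianAutomorphisms

open Pool.Agent.Helper84.FJ Pool.Agent.Q91.FJ Pool.Agent.Y462.SS Pool.Agent.Q152.WP

/-- `G` is generated by two elements. -/
def TwoGenerated (G : Type) [Group G] : Prop :=
  ∃ a b : G, Subgroup.closure {a, b} = (⊤ : Subgroup G)

/-- `R` is the commutative ring of endomorphisms of the commutator subgroup of `H` which is generated by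
the conjugations with the elements of `H`: the commutator subgroup is identified with a faithful
`R`-module `A` by `e`, and `π g ∈ R` is the conjugation with `g`. -/
structure ConjRing (H : Type) [Group H] (R A : Type) [CommRing R] [AddCommGroup A]
    [Module R A] where
  /-- the identification of the commutator subgroup with `A` -/
  e : commutator H ≃* Multiplicative A
  /-- the conjugations -/
  π : H → R
  conj : ∀ (g : H) (x y : commutator H), (y : H) = g * x * g⁻¹ →
    (e y).toAdd = π g • (e x).toAdd
  gen : Subring.closure (Set.range π) = ⊤
  faith : ∀ r : R, (∀ a : A, r • a = 0) → r = 0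

/-- The commutator subgroup of the (metabelian) group `H` has dimension at most one: the commutative
ring `R` of endomorphisms of the commutator subgroup which is generated by the conjugations with the
elements of `H` has Krull dimension at most one. -/
def DimLEOne (H : Type) [Group H] : Prop :=
  ∃ (R A : Type) (_ : CommRing R) (_ : AddCommGroup A) (_ : Module R A),
    Nonempty (ConjRing H R A) ∧ ringKrullDim R ≤ 1

/-- the group of inner automorphisms -/
def Inn (G : Type) [Group G] : Subgroup (MulAut G) := (MulAut.conj : G →* MulAut G).range

instance inn_normal (G : Type) [Group G] : (Inn G).Normal := by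
  refine ⟨?_⟩
  rintro _ ⟨g, rfl⟩ u
  refine ⟨u g, ?_⟩
  ext x
  simp

/-- Let `C` be a class of groups with the closure properties `Closed C` and `ExtClosed C` which contains
the solvable groups and the groups `GLₙ(ℚ)` and `GLₙ(𝔽ₚ(t))` for all `n` and all primes `p`.  Let `G` be
a group whose commutator subgroup `M` is nilpotent.  Suppose that `G` is generated by two elements, or
that `G` is finitely generated and the commutator subgroup `M / [M, M]` of `G / [M, M]` has dimension at
most one.

(1) For every subgroup `H` of the holomorph `G ⋊ Aut(G)` and every virtually solvable normal subgroup `S`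
of `H` the quotient `H / S` is in `C`.  (2) The outer automorphism group `Out(G)` is in `C`. -/
theorem result (C : ∀ (G : Type) [Group G], Prop) (hC : Closed C) (hE : ExtClosed C)
    (hS : HasSolvable C) (hQ : ∀ n : ℕ, C (Matrix.GeneralLinearGroup (Fin n) ℚ))
    (hF : ∀ (p : ℕ) [Fact p.Prime] (n : ℕ),
      C (Matrix.GeneralLinearGroup (Fin n) (RatFunc (ZMod p))))
    (G : Type) [Group G] (hnil : Group.IsNilpotent (commutator G))
    (hG : TwoGenerated G ∨ Group.FG G ∧ DimLEOne (G ⧸ ⁅commutator G, commutator G⁆)) :
    (∀ (H : Subgroup (G ⋊[MonoidHom.id (MulAut G)] MulAut G)) (S : Subgroup H) [S.Normal],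
      VSolv S → C (H ⧸ S)) ∧
    C (MulAut G ⧸ Inn G) := by
  have h1 : VSL (fun K _ => ∀ n : ℕ, C (Matrix.GeneralLinearGroup (Fin n) K)) (MulAut G) := by
    rcases hG with ⟨a, b, hab⟩ | ⟨hfg, R, A, _, _, _, ⟨e, π, hconj, hgen, hfaith⟩, hdim⟩
    · exact vsl_two_gen_nil (P := fun K _ => ∀ n : ℕ, C (Matrix.GeneralLinearGroup (Fin n) K))
        hQ a b hab hnil
    · exact vsl_dim_one hC hQ hF hnil e π hconj hgen hfaith hdim
  have h2 : VS G := by
    refine VS.ext (QuotientGroup.mk' (commutator G)) ?_
      (VS.of_solvable (Group.isSolvable_of_comm (comm_ab G)))
    rw [QuotientGroup.ker_mk']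
    exact VS.of_solvable inferInstance
  have hGL : HasLinear (fun K _ => ∀ n : ℕ, C (Matrix.GeneralLinearGroup (Fin n) K)) C :=
    fun K _ h => h
  refine ⟨fun H S _ hS' => ?_, ?_⟩
  · have h3 : VSL (fun K _ => ∀ n : ℕ, C (Matrix.GeneralLinearGroup (Fin n) K))
        (G ⋊[MonoidHom.id (MulAut G)] MulAut G) := by
      refine VSL.ext SemidirectProduct.rightHom ?_ h1
      have h4 : (SemidirectProduct.rightHom :
          G ⋊[MonoidHom.id (MulAut G)] MulAut G →* MulAut G).ker =
          (SemidirectProduct.inl : G →* G ⋊[MonoidHom.id (MulAut G)] MulAut G).range :=
        SemidirectProduct.range_inl_eq_ker_rightHom.symm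
      rw [h4]
      exact VS.of_surjective _ (MonoidHom.rangeRestrict_surjective _) h2
    refine (VSL.quot (QuotientGroup.mk' S) (QuotientGroup.mk'_surjective S) ?_
      (VSL.of_injective H.subtype H.subtype_injective h3)).mem hC hE hS hGL
    rw [QuotientGroup.ker_mk']
    exact vs_iff.2 hS'
  · refine (VSL.quot (QuotientGroup.mk' (Inn G)) (QuotientGroup.mk'_surjective _) ?_ h1).mem
      hC hE hS hGL
    rw [QuotientGroup.ker_mk']
    exact VS.of_surjective _ (MonoidHom.rangeRestrict_surjective _) h2

end Pool.Agent.Results.MP_e40716_gt.NilpotentByAbelianAutomorphisms
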