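import Pool.Agent.Helper84.Cr.P

/-!
# Extensions whose kernels act on trees with commensurable virtually ICC stabilizers

`C` is any class of groups with the closure properties `ClosedE C` (`Pool.Agent.Y110.FJ`): it contains `ℤ`
and is closed under groups that embed, finite products, free products, overgroups of finite index,
colimits of directed systems, and `G` is in `C` if it maps onto a group `Q` in `C` such that the
preimages of the virtually cyclic subgroups of `Q` are in `C`.  `HasSolvable C`: the solvable groups are in
`C`.  `FbC C`: the groups `F ⋊ ℤ` are in `C` for all free groups `F`.  All this, and that the groups `GLₘ(ℚ)`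
and `GLₘ(𝔽ₚ(t))` are in `C`, is known for the class of the groups which satisfy the K-theoretic
Farrell–Jones conjecture with additive category coefficients and finite wreath products
(Bartels–Lück–Reich, Bartels–Farrell–Lück, Wegner, Rüping, Bestvina–Fujiwara–Wigglesworth,
Brück–Kielak–Wu).

`AbsComm E` (`Pool.Agent.X201.FJ`) is the abstract commensurator of `E`.  `NoFree S`
(`Pool.Agent.Helper84.Cr.M`): the subgroup `S` contains no free group of rank two.
`NonElementary N T` (`Pool.Agent.Helper84.Cr.L`): for each axis `L` of an element of `N` there is `g` in `N`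
such that `L` and `g L` have only finitely many common vertices.

Examples for `N` in (1) are all fundamental groups of graphs of groups whose vertex groups are
lamplighter groups `A ≀ ℤ` (`A ≠ 0` finite abelian), groups `ℤ[1/m] ⋊ ℤ` with `m > 1`, or
`ℤⁿ ⋊ ℤ` where `ℤ` acts by a matrix without eigenvalues that are roots of unity, and whose edge groups have finite
index in the adjacent vertex groups, unless `N` fixes an end or a line of the Bass–Serre tree.  `G` need not act on
the tree.  That lamplighter groups have the property `AbelianByCyclic` is shown in
`MP_5d3e93_al.AbstractCommensurators`, which also treats the case that `G` itself acts on the tree.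

Outline of the proof.  Ping-pong shows that in a nonelementary action every finitely generated subgroup
which is commensurable with all its conjugates and has a subgroup of finite index without free
subgroups of rank two fixes a vertex (`elliptic_nf`).  So for all automorphisms `ψ` of `N` the group
`ψ(N_v)` is commensurable with `N_v` (`class_inv_nf`).  Hence conjugation defines a homomorphism from `G` to
the abstract commensurator of `E = N_v`.  Let `M` be the kernel of the homomorphism from `G` to
`AbsComm(E) × G / N`.  The elements of `M` are in `N` and centralize subgroups of finite index of `N_v`.  As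
`E` is virtually ICC, `M` intersects all stabilizers `N_w` in finite subgroups, which are normal in `N_w`,
so they are trivial.  So `M` acts freely on the tree and is a free group, and `G / M` is in `C`.  The
abstract commensurators of the groups in (1) are in `C` by `MP_5d3e93_al.AbstractCommensurators`.

Earlier results: `MP_551055_al.CommensuratedKernels` (library) for torsion-free stabilizers whose
commensurability class is assumed to be invariant under conjugation by `G`, and
`MP_c052b4_al.CommensurableTrees` (library) and `MP_5d3e93_al.AbstractCommensurators` for groups `G` which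
act on the tree themselves.
-/

set_option autoImplicit false

namespace Pool.Agent.Results.MP_e40716_gt.VirtuallyICCStabilizers

open Pool.Agent.Helper84.Cr Pool.Agent.Q91.FJ
open Pool.Agent.X201.FJ (AbsComm)

/-- The group `N` acts without inversions on the tree `T` such that the stabilizers of adjacent vertices
are commensurable and no vertex stabilizer has a nontrivial finite normal subgroup. -/
structure TAction (N : Type) {V : Type} [Group N] [MulAction N V] (T : SimpleGraph V) : Prop where
  isTree : T.IsTree
  adj : ∀ (g : N) (u v : V), T.Adj u v → T.Adj (g • u) (g • v)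
  noInv : ∀ (g : N) (u v : V), T.Adj u v → ¬ (g • u = v ∧ g • v = u)
  com : ∀ u v : V, T.Adj u v → (MulAction.stabilizer N u).relIndex (MulAction.stabilizer N v) ≠ 0
  noFin : ∀ (v : V) (F : Subgroup N), F ≤ MulAction.stabilizer N v → Finite F →
    (∀ x ∈ MulAction.stabilizer N v, ∀ y ∈ F, x * y * x⁻¹ ∈ F) → F = ⊥

/-- `E` has a finitely generated subgroup `E₀` of finite index with an abelian normal subgroup `M` such
that `E₀ / M` is cyclic (generated by `t`), `M` has finite torsion-free rank, and no element `g ≠ 1` of
`E₀` commutes with all elements of a subgroup of finite index. -/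
def AbelianByCyclic (E : Type) [Group E] : Prop :=
  ∃ (E₀ M : Subgroup E) (t : E), E₀.FiniteIndex ∧ E₀.FG ∧ M ≤ E₀ ∧ t ∈ E₀ ∧
    (∀ g ∈ E₀, ∀ m ∈ M, g * m * g⁻¹ ∈ M) ∧ (∀ x ∈ M, ∀ y ∈ M, x * y = y * x) ∧
    (∀ g ∈ E₀, ∃ m ∈ M, ∃ k : ℤ, g = m * t ^ k) ∧
    (∃ s : Finset E, (∀ x ∈ s, x ∈ M) ∧
      ∀ m ∈ M, ∃ n : ℕ, 0 < n ∧ m ^ n ∈ Subgroup.closure (s : Set E)) ∧
    (∀ g ∈ E₀, (∃ A : Subgroup E, A.FiniteIndex ∧ ∀ a ∈ A, g * a = a * g) → g = 1)

/-- `E` has a subgroup `E₀` of finite index such that no element `g ≠ 1` of `E₀` commutes with all
elements of a subgroup of finite index. -/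
def VirtuallyICC (E : Type) [Group E] : Prop :=
  ∃ E₀ : Subgroup E, E₀.FiniteIndex ∧
    ∀ g ∈ E₀, (∃ A : Subgroup E, A.FiniteIndex ∧ ∀ a ∈ A, g * a = a * g) → g = 1

/-- The stabilizer of `v` in the subgroup `N` of `G`, as a subgroup of `G`. -/
def St {G V : Type} [Group G] (N : Subgroup G) [MulAction N V] (v : V) : Subgroup G :=
  (MulAction.stabilizer N v).map N.subtype

/-- Let `C` be a class of groups with the closure properties `ClosedE C` which contains the groups
`F ⋊ ℤ` for all free groups `F`.  Let `N` be a normal subgroup of a group `G` such that `G / N` is in `C`,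
let `N` (but not necessarily `G`) act on a tree as in `TAction`, and let `v` be a vertex.

(1) Let `C` contain the solvable groups and the groups `GLₘ(ℚ)` and `GLₘ(𝔽ₚ(t))`.  Suppose that the
stabilizer `N_v` has the property `AbelianByCyclic`, and that `NonElementary N T` or that `g N_v g⁻¹` is
commensurable with `N_v` for all `g` in `G`.  Then `G` is in `C`.

(2) Suppose that `N_v` is virtually ICC and its abstract commensurator is in `C`, and that either `N_v` is
finitely generated without free subgroups of rank two and `NonElementary N T`, or `g N_v g⁻¹` is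
commensurable with `N_v` for all `g` in `G`.  Then `G` is in `C`. -/
theorem result (C : ∀ (G : Type) [Group G], Prop) (hC : Pool.Agent.Y110.FJ.ClosedE C)
    (hF : Pool.Agent.R684.FP.FbC C) (G V : Type) [Group G] (N : Subgroup G) [N.Normal]
    [MulAction N V] (T : SimpleGraph V) (hQ : C (G ⧸ N)) (hT : TAction N T) (v : V) :
    (HasSolvable C → (∀ m : ℕ, C (Matrix.GeneralLinearGroup (Fin m) ℚ)) →
      (∀ (p : ℕ) [Fact p.Prime] (m : ℕ),
        C (Matrix.GeneralLinearGroup (Fin m) (RatFunc (ZMod p)))) →
      AbelianByCyclic (St N v) →
      (NonElementary N T ∨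
        ∀ g : G, ((St N v).map (MulAut.conj g).toMonoidHom).relIndex (St N v) ≠ 0) → C G) ∧
    (VirtuallyICC (St N v) → C (AbsComm (St N v)) →
      (((St N v).FG ∧ NoFree (St N v) ∧ NonElementary N T) ∨
        ∀ g : G, ((St N v).map (MulAut.conj g).toMonoidHom).relIndex (St N v) ≠ 0) → C G) := by
  refine ⟨fun hS hQ' hP hE hor => ?_, fun hV hAbs hor => ?_⟩
  · exact abCyc_kernels hC hS hQ' hP hF N hQ T hT.isTree hT.adj hT.noInv hT.com hT.noFin v hE hor
  · rcases hor with ⟨hfg, hnf, hne⟩ | hG
    · have h2 : (MulAction.stabilizer N v).FG := by
        have h1 : Group.FG ↥((MulAction.stabilizer N v).map N.subtype) :=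
          (Group.fg_iff_subgroup_fg _).2 hfg
        rw [← Group.fg_iff_subgroup_fg]
        exact Group.fg_of_surjective (f := (Subgroup.equivMapOfInjective
          (MulAction.stabilizer N v) N.subtype N.subtype_injective).symm.toMonoidHom)
          (MulEquiv.surjective _)
      refine icc_kernels' hC hF N hQ T hT.isTree hT.adj hT.noInv hT.com hT.noFin hne v hV h2
        (S := MulAction.stabilizer N v) ?_ ?_ hAbs
      · rw [Subgroup.relIndex_self]; exact one_ne_zero
      · intro f hf hinj
        exact hnf (N.subtype.comp f) (fun x => ⟨f x, hf x, rfl⟩)
          (N.subtype_injective.comp hinj)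
    · exact icc_kernels hC hF N hQ T hT.isTree hT.adj hT.noInv hT.com hT.noFin v hV hG hAbs

end Pool.Agent.Results.MP_e40716_gt.VirtuallyICCStabilizers
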