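import Pool.Agent.Helper84.FJ.E

/-!
# Farrell–Jones groups and quotients by virtually solvable normal subgroups

`ClosedA C` (`Q182.Cyl`): the class `C` of groups contains `ℤ` and is closed under groups that embed,
finite products, free products, overgroups of finite index, colimits of directed systems with arbitrary
structure maps (`Closed`), satisfies the extension criterion (`ClosedE`: if `Q` is in `C` and the
preimages of the virtually cyclic subgroups of `Q` under `G → Q` are in `C`, then `G` is in `C`) and is
closed under acylindrical actions on trees, in the fibered form.  `HasSolvable C`: all solvable groups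
are in `C`.  All these properties are known for the class of the groups which satisfy the K-theoretic
Farrell–Jones conjecture with additive category coefficients and finite wreath products.  This class
contains the groups `GLₙ(K)` for all fields `K` which are algebraic over `ℚ` or `𝔽_q(t)` (Rüping), and
the hyperbolic groups, which have the property required from the groups in `𝒳` below.

It is not known whether the class is closed under quotients by finite, or virtually solvable, normal
subgroups.  The theorem says that this is the case for all groups which are obtained from linear groups,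
solvable groups and hyperbolic groups by all the operations above (with directed unions instead of
colimits) and by such quotients, in any order.

Outline of the proof.  Let `QC` be the class of the groups `G` such that `H / S` is in `C` for all
subgroups `H` of `G` and all virtually solvable normal subgroups `S` of `H`.

* Linear groups.  Let `ρ` be a homomorphism of `G` to the units of a finite-dimensional algebra `E` over
  `K`, and let `S` be a normal subgroup of `G` which is solvable modulo the kernel; let `A` be the last
  derived subgroup of `S` which is not in the kernel, and let `G` act by conjugation on the centralizer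
  `B` of `ρ(A)` in `E`.  This is a homomorphism `ρ₁` to the units of `End_K(B)` with `A` in the kernel,
  and its kernel is abelian modulo the kernel of `ρ`, because `ρ(A)` is commutative.  By induction `S` is
  contained in the kernel of a homomorphism `ρ'` to the units of a finite-dimensional algebra whose
  kernel is solvable modulo the kernel of `ρ`.  So the class of the groups which have a subgroup of
  finite index that is solvable-by-linear is closed under quotients by virtually solvable normal
  subgroups.
* Extensions.  For `p : G → Q` and `H / S` as above one applies the extension property to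
  `H / S → p(H) / p(S)`.  The kernel is a quotient of `H ∩ ker p`, and the preimages of cyclic subgroups
  are quotients of subgroups of preimages of cyclic subgroups of `Q`.
* Trees.  Let `H` be a finitely generated group acting acylindrically on a tree through `F`, and `S` a
  virtually solvable normal subgroup with image `S'` in `F`.  If `S'` is finite, then `H / S → F / S'`
  acts acylindrically on the tree of the points fixed by `S'`.  If `S'` is infinite, it contains an
  infinite normal subgroup `B` of `F` with finite commutator subgroup; if `B` contains a hyperbolic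
  element, then `F` preserves its axis and is virtually cyclic; otherwise `F` fixes a vertex, because
  elliptic elements of `B` fix half-lines of the axes of the hyperbolic elements of `F`, all in the same
  direction, and this makes `B` finite.
-/

set_option autoImplicit false

namespace Pool.Agent.Results.MP_e40716_gt.VirtuallySolvableQuotients

open Pool.Agent.Helper84.FJ Pool.Agent.Q91.FJ Pool.Agent.Y462.SS

/-- The smallest class of groups which contains the groups in `𝒳`, the solvable groups and the linear
groups over the fields in `𝒦` and is closed under subgroups, finite products, overgroups of finite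
index, directed unions, extensions (if `f` maps `G` onto `Q`, and `Q`, the kernel and the preimages of the
infinite cyclic subgroups of `Q` are in the class), acylindrical actions on trees (if `G` maps to `F`,
which acts without inversions on a tree such that the stabilizers of pairs of vertices at distance at
least `k` are finite, and the preimages of the vertex stabilizers and of the virtually cyclic subgroups
of `F` are in the class) and quotients by virtually solvable normal subgroups and, more generally, by
normal subgroups which meet all finitely generated subgroups in virtually solvable groups. -/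
inductive Gen (𝒳 : ∀ (G : Type) [Group G], Prop) (𝒦 : ∀ (K : Type) [Field K], Prop) :
    ∀ (G : Type) [Group G], Prop
  | atom (G : Type) [Group G] : 𝒳 G → Gen 𝒳 𝒦 G
  | linear (K : Type) [Field K] (n : ℕ) : 𝒦 K → Gen 𝒳 𝒦 (Matrix.GeneralLinearGroup (Fin n) K)
  | solvable (G : Type) [Group G] : Group.IsSolvable G → Gen 𝒳 𝒦 G
  | subgroup (G H : Type) [Group G] [Group H] (f : G →* H) : Function.Injective f →
      Gen 𝒳 𝒦 H → Gen 𝒳 𝒦 G
  | prod (G H : Type) [Group G] [Group H] : Gen 𝒳 𝒦 G → Gen 𝒳 𝒦 H → Gen 𝒳 𝒦 (G × H)
  | finiteIndex (G : Type) [Group G] (K : Subgroup G) : K.FiniteIndex → Gen 𝒳 𝒦 K → Gen 𝒳 𝒦 G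
  | union (G I : Type) [Group G] [Preorder I] [Nonempty I] (K : I → Subgroup G) :
      (∀ i j : I, ∃ k, i ≤ k ∧ j ≤ k) → Monotone K → (∀ g, ∃ i, g ∈ K i) →
      (∀ i, Gen 𝒳 𝒦 (K i)) → Gen 𝒳 𝒦 G
  | extension (G Q : Type) [Group G] [Group Q] (f : G →* Q) : Gen 𝒳 𝒦 Q → Gen 𝒳 𝒦 f.ker →
      (∀ q : Q, ¬ IsOfFinOrder q → Gen 𝒳 𝒦 ((Subgroup.zpowers q).comap f)) → Gen 𝒳 𝒦 G
  | tree (G F V : Type) [Group G] [Group F] [MulAction F V] (π : G →* F) (T : SimpleGraph V)
      (k : ℕ) : T.IsTree →
      (∀ (f : F) (v w : V), T.Adj v w → T.Adj (f • v) (f • w)) →
      (∀ (f : F) (v w : V), T.Adj v w → ¬ (f • v = w ∧ f • w = v)) →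
      (∀ v w : V, k ≤ T.dist v w → {f : F | f • v = v ∧ f • w = w}.Finite) →
      (∀ v : V, Gen 𝒳 𝒦 ((MulAction.stabilizer F v).comap π)) →
      (∀ W : Subgroup F, (∃ c ∈ W, (Subgroup.zpowers c).relIndex W ≠ 0) →
        Gen 𝒳 𝒦 (W.comap π)) → Gen 𝒳 𝒦 G
  | quotient (G Q : Type) [Group G] [Group Q] (f : G →* Q) : Function.Surjective f →
      (∀ L : Subgroup G, L.FG → VSolv (f.ker ⊓ L : Subgroup G)) → Gen 𝒳 𝒦 G → Gen 𝒳 𝒦 Q

theorem main (C : ∀ (G : Type) [Group G], Prop) (hC : Q182.Cyl.ClosedA C) (hS : HasSolvable C)
    (𝒳 : ∀ (G : Type) [Group G], Prop) (𝒦 : ∀ (K : Type) [Field K], Prop)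
    (h𝒳 : ∀ (G : Type) [Group G], 𝒳 G → ∀ (H : Subgroup G) (S : Subgroup H) [S.Normal],
      VSolv S → C (H ⧸ S))
    (h𝒦 : ∀ (K : Type) [Field K], 𝒦 K → ∀ n : ℕ, C (Matrix.GeneralLinearGroup (Fin n) K))
    (G : Type) [Group G] (hG : Gen 𝒳 𝒦 G) : QC C G := by
  have hE := closedA_ext hC
  have hB := hC.base.base
  induction hG with
  | atom G h => exact QC.of_sub hB (h𝒳 G h)
  | linear K n h =>
    exact QC.of_vsl (P := 𝒦) hB hE hS h𝒦 (SL.units K h (Matrix (Fin n) (Fin n) K)).vsl
  | solvable G h => exact QC.of_solvable hS h
  | subgroup G H f hf _ ih => exact QC.of_injective f hf ih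
  | prod G H _ _ ih1 ih2 => exact QC.prod hB hE hS ih1 ih2
  | finiteIndex G K hK _ ih => exact QC.finiteIndex hB K hK ih
  | union G I K h1 h2 h3 _ ih => exact QC.union hB I h1 K h2 h3 ih
  | extension G Q f _ _ _ ih1 ih2 ih3 => exact QC.ext hE f ih1 ih2 ih3
  | tree G F V π T k h1 h2 h3 h4 _ _ ih1 ih2 => exact QC.acyl hC ⟨h1, h2, h3⟩ h4 π ih1 ih2
  | quotient G Q f hf hk _ ih => exact QC.quot_loc hB f hf (fun L hL => vs_iff.2 (hk L hL)) ih

/-- Let `C` be a class of groups with the closure properties `ClosedA C` which contains the solvable
groups.  Let `𝒳` be a class of groups `G` such that `H / S` is in `C` for all subgroups `H` of `G` and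
all virtually solvable normal subgroups `S` of `H`, and let `𝒦` be a class of fields `K` with `GLₙ(K)` in
`C` for all `n`.  Then all groups of the class `Gen 𝒳 𝒦` are in `C`.  In particular, if `G` is in
`Gen 𝒳 𝒦` and `V` is a virtually solvable subgroup of `G`, for example a virtually cyclic one, then
`N_G(V) / V` is in `C`. -/
theorem result (C : ∀ (G : Type) [Group G], Prop) (hC : Q182.Cyl.ClosedA C) (hS : HasSolvable C)
    (𝒳 : ∀ (G : Type) [Group G], Prop) (𝒦 : ∀ (K : Type) [Field K], Prop)
    (h𝒳 : ∀ (G : Type) [Group G], 𝒳 G → ∀ (H : Subgroup G) (S : Subgroup H) [S.Normal],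
      VSolv S → C (H ⧸ S))
    (h𝒦 : ∀ (K : Type) [Field K], 𝒦 K → ∀ n : ℕ, C (Matrix.GeneralLinearGroup (Fin n) K)) :
    (∀ (G : Type) [Group G], Gen 𝒳 𝒦 G → C G) ∧
    (∀ (G : Type) [Group G], Gen 𝒳 𝒦 G → ∀ V : Subgroup G, VSolv V →
      C (Subgroup.normalizer (V : Set G) ⧸ V.subgroupOf (Subgroup.normalizer (V : Set G)))) := by
  refine ⟨fun G _ hG => (main C hC hS 𝒳 𝒦 h𝒳 h𝒦 G hG).mem, fun G _ hG V hV => ?_⟩
  refine main C hC hS 𝒳 𝒦 h𝒳 h𝒦 G hG (Subgroup.normalizer (V : Set G)) _ (Subgroup.subtype _)
    (QuotientGroup.mk' _) (Subgroup.subtype_injective _) (QuotientGroup.mk'_surjective _) ?_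
  rw [QuotientGroup.ker_mk']
  refine VS.of_injective (G := V.subgroupOf (Subgroup.normalizer (V : Set G))) (H := V)
    (((Subgroup.subtype _).comp (Subgroup.subtype _)).codRestrict _ (fun x => x.2)) ?_
    (vs_iff.2 hV)
  intro x y hxy
  have hxy' := congrArg Subtype.val hxy
  exact Subtype.ext (Subtype.ext hxy')

end Pool.Agent.Results.MP_e40716_gt.VirtuallySolvableQuotients
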